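import Pool.Agent.MWGR.StmtsF

/-! Row ECL of squad MWGR (MP_23468a_al): the exchange over a gap, closure. -/

set_option autoImplicit false

namespace Pool.Agent.MWGR.H75

open Pool.Agent.Helper14_MV Pool.Agent.Helper2_MV Pool.Agent.MVO Pool.Agent.MWL Pool.Agent.MWS
  Pool.Agent.MWH Pool.Agent.MWGR

/-- `x^i a x^j b x^k T` -/
def Wab (a b : ℕ) (T : List ℕ) (i j k : ℕ) : List ℕ := X i ++ a :: (X j ++ b :: (X k ++ T))

theorem xadd (i j : ℕ) : X i ++ X j = X (i + j) := by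
  show List.replicate i 0 ++ List.replicate j 0 = List.replicate (i + j) 0
  rw [List.replicate_add]

theorem zero_mem_x {i : ℕ} (h : 1 ≤ i) : 0 ∈ X i := List.mem_replicate.2 ⟨by omega, rfl⟩

/-- exponents modulo `n` -/
theorem red (hexg : ExgStmt) {n : ℕ} {θ : FIC} (hB : BG n (RR θ)) {a b : ℕ} {T : List ℕ} (ha : a ∈ T)
    {i j k i' j' k' : ℕ} (hi : i ≡ i' [MOD n]) (hj : j ≡ j' [MOD n]) (hk : k ≡ k' [MOD n])
    (h1 : 1 ≤ i) (h1' : 1 ≤ i') (h2 : 1 ≤ j) (h2' : 1 ≤ j') (h3 : 1 ≤ k) (h3' : 1 ≤ k') :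
    RR θ (Wab a b T i j k) (Wab a b T i' j' k') := by
  have e1 : RR θ (Wab a b T i j k) (Wab a b T i' j k) := by
    have hq : a :: (X j ++ b :: (X k ++ T)) = [a] ++ 0 :: (X (j - 1) ++ b :: (X k ++ T)) := by
      have : X j = 0 :: X (j - 1) := by
        obtain ⟨j0, rfl⟩ : ∃ j0, j = j0 + 1 := ⟨j - 1, by omega⟩
        show List.replicate (j0 + 1) 0 = _
        rw [List.replicate_succ]
        rfl
      rw [this]
      rfl
    have h := (hexg n θ hB [] (a :: (X j ++ b :: (X k ++ T))) 0 i i' hi).2.2.2 [a]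
      (X (j - 1) ++ b :: (X k ++ T)) hq h1 h1' (by
        intro c hc _
        rw [List.mem_singleton] at hc
        rw [hc]
        have hT : 1 ≤ T.count a := List.count_pos_iff.2 ha
        rw [List.nil_append, List.count_cons_self, List.count_append]
        have h5 : T.count a ≤ (b :: (X k ++ T)).count a := by
          rw [List.count_cons, List.count_append]
          omega
        omega)
    exact h
  have e2 : RR θ (Wab a b T i' j k) (Wab a b T i' j' k) := by
    have h := (hexg n θ hB (X i' ++ [a]) (b :: (X k ++ T)) 0 j j' hj).1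
      (List.mem_append_left _ (zero_mem_x h1')) h2 h2'
    have e : ∀ j, (X i' ++ [a]) ++ (List.replicate j 0 ++ b :: (X k ++ T)) = Wab a b T i' j k := by
      intro j
      unfold Wab
      simp
    rw [e, e] at h
    exact h
  have e3 : RR θ (Wab a b T i' j' k) (Wab a b T i' j' k') := by
    have h := (hexg n θ hB (X i' ++ a :: (X j' ++ [b])) T 0 k k' hk).1
      (List.mem_append_left _ (zero_mem_x h1')) h3 h3'
    have e : ∀ k, (X i' ++ a :: (X j' ++ [b])) ++ (List.replicate k 0 ++ T) = Wab a b T i' j' k := by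
      intro k
      unfold Wab
      simp
    rw [e, e] at h
    exact h
  exact θ.trans e1 (θ.trans e2 e3)

theorem ec_iff {n c : ℕ} {T : List ℕ} {θ : FIC} : Ec n c T (RR θ) ↔
    RR θ (Wab 1 2 T n (n + c) n) (Wab 2 1 T (n + c) (n + (n - 1) * c) (n + c)) := Iff.rfl

/-- `0 ↦ x^r` -/
def sb (r : ℕ) (d : ℕ) : List ℕ := if d = 0 then X r else [d]

theorem sb_x (r i : ℕ) : (X i).flatMap (sb r) = X (i * r) := by
  induction i with
  | zero => simp
  | succ i ih =>
    have : X (i + 1) = 0 :: X i := by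
      show List.replicate (i + 1) 0 = _
      rw [List.replicate_succ]
    rw [this, List.flatMap_cons, ih]
    have h0 : sb r 0 = X r := rfl
    rw [h0, xadd]
    congr 1
    rw [Nat.succ_mul]
    omega

theorem sb_id (r : ℕ) : ∀ T : List ℕ, 0 ∉ T → T.flatMap (sb r) = T
  | [], _ => rfl
  | d :: T, h => by
    rw [List.flatMap_cons, sb_id r T (fun h' => h (List.mem_cons_of_mem _ h'))]
    have hd : d ≠ 0 := fun e => h (by rw [e]; exact List.mem_cons_self)
    unfold sb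
    rw [if_neg hd]
    rfl

theorem sb_w (r a b : ℕ) {T : List ℕ} (hT : 0 ∉ T) (ha : a ≠ 0) (hb : b ≠ 0) (i j k : ℕ) :
    (Wab a b T i j k).flatMap (sb r) = Wab a b T (i * r) (j * r) (k * r) := by
  unfold Wab
  rw [List.flatMap_append, List.flatMap_cons, List.flatMap_append, List.flatMap_cons,
    List.flatMap_append, sb_x, sb_x, sb_x, sb_id r T hT]
  have h1 : sb r a = [a] := by
    unfold sb
    rw [if_neg ha]
  have h2 : sb r b = [b] := by
    unfold sb
    rw [if_neg hb]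
  rw [h1, h2]
  rfl

theorem mod1 (n c s : ℕ) : (n + c) * (s + n) ≡ n + s * c [MOD n] := by
  have h : (n + c) * (s + n) = s * c + n * (s + n + c) := by ring
  rw [h]
  unfold Nat.ModEq
  rw [Nat.add_mul_mod_self_left, Nat.add_mod_left]

theorem mod0 (n s : ℕ) : n * (s + n) ≡ n [MOD n] := by
  unfold Nat.ModEq
  rw [Nat.mul_mod_right, Nat.mod_self]

/-- (A) -/
theorem ecA (hexg : ExgStmt) {n : ℕ} {θ : FIC} (hB : BG n (RR θ)) {T : List ℕ} (h1 : 1 ∈ T)
    (h2 : 2 ∈ T) (h0 : 0 ∉ T) {c : ℕ} (h : Ec n c T (RR θ)) (s : ℕ) : Ec n (s * c) T (RR θ) := by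
  have hn := hB.pos
  rw [ec_iff] at h ⊢
  have h3 := h.sub (sb (s + n))
  rw [sb_w _ _ _ h0 (by decide) (by decide), sb_w _ _ _ h0 (by decide) (by decide)] at h3
  have p1 : ∀ a : ℕ, 1 ≤ (n + a) * (s + n) := fun a => Nat.mul_pos (by omega) (by omega)
  have p0 : 1 ≤ n * (s + n) := Nat.mul_pos (by omega) (by omega)
  have h4 : RR θ (Wab 1 2 T n (n + s * c) n)
      (Wab 1 2 T (n * (s + n)) ((n + c) * (s + n)) (n * (s + n))) :=
    red hexg hB h1 (mod0 n s).symm (mod1 n c s).symm (mod0 n s).symm hn p0 (by omega) (p1 c) hn p0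
  have h5 : RR θ (Wab 2 1 T ((n + c) * (s + n)) ((n + (n - 1) * c) * (s + n)) ((n + c) * (s + n)))
      (Wab 2 1 T (n + s * c) (n + (n - 1) * (s * c)) (n + s * c)) := by
    have e : (n + (n - 1) * c) * (s + n) ≡ n + (n - 1) * (s * c) [MOD n] := by
      have h6 := mod1 n ((n - 1) * c) s
      rw [show s * ((n - 1) * c) = (n - 1) * (s * c) by ring] at h6
      exact h6
    exact red hexg hB h2 (mod1 n c s) e (mod1 n c s) (p1 c) (by omega) (p1 _) (by omega) (p1 c)
      (by omega)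
  exact θ.trans h4 (θ.trans h3 h5)

/-- (B) -/
theorem ecB (hexg : ExgStmt) (hdcr : DcrStmt) {n : ℕ} {θ : FIC} (hB : BG n (RR θ)) {T : List ℕ}
    (h1 : 1 ∈ T) (h2 : 2 ∈ T) {m c : ℕ} (hm : Dm n m (RR θ)) (h : Ec n c T (RR θ)) :
    Ec n (c + m) T (RR θ) := by
  have hn := hB.pos
  rw [ec_iff] at h ⊢
  have a1 : RR θ (Wab 1 2 T (n + m) (n + c) n) (Wab 1 2 T n (n + c + m) n) :=
    hdcr n θ hB m hm [] (2 :: (X n ++ T)) 0 1 n (n + c) (by decide) hn (by omega) (by simp [h1])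
  have a2 : RR θ (X m ++ Wab 1 2 T n (n + c) n)
      (X m ++ Wab 2 1 T (n + c) (n + (n - 1) * c) (n + c)) := (RR.refl _).append h
  have e : ∀ (a b i j k : ℕ), X m ++ Wab a b T i j k = Wab a b T (m + i) j k := by
    intro a b i j k
    unfold Wab
    rw [← List.append_assoc, xadd]
  rw [e, e] at a2
  have a3 : RR θ (Wab 2 1 T (m + (n + c)) (n + (n - 1) * c) (n + c))
      (Wab 2 1 T (n + (c + m)) (n + (n - 1) * (c + m) + m) (n + c)) := by
    refine red hexg hB h2 ?_ ?_ rfl (by omega) (by omega) (by omega) (by omega) (by omega) (by omega)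
    · rw [show m + (n + c) = n + (c + m) by omega]
    · obtain ⟨n0, rfl⟩ : ∃ n0, n = n0 + 1 := ⟨n - 1, by omega⟩
      have : n0 + 1 + (n0 + 1 - 1) * (c + m) + m = n0 + 1 + (n0 + 1 - 1) * c + (n0 + 1) * m := by
        rw [Nat.add_sub_cancel]
        ring
      rw [this]
      unfold Nat.ModEq
      rw [Nat.add_mul_mod_self_left]
  have a4 : RR θ (Wab 2 1 T (n + (c + m)) (n + (n - 1) * (c + m) + m) (n + c))
      (Wab 2 1 T (n + (c + m)) (n + (n - 1) * (c + m)) (n + c + m)) := by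
    have h3 := hdcr n θ hB m hm (X (n + (c + m)) ++ [2]) T 0 1 (n + (n - 1) * (c + m)) (n + c)
      (by decide) (by omega) (by omega) h1
    have e1 : ∀ j k : ℕ, (X (n + (c + m)) ++ [2]) ++
        (List.replicate j 0 ++ 1 :: (List.replicate k 0 ++ T)) = Wab 2 1 T (n + (c + m)) j k := by
      intro j k
      unfold Wab
      simp
    rw [e1, e1] at h3
    exact h3
  rw [show n + m = m + n by omega] at a1
  have a5 := θ.trans (RR.symm a1) (θ.trans a2 (θ.trans a3 a4))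
  rw [show n + c + m = n + (c + m) by omega] at a5
  exact a5

/-- (C) -/
theorem ecC (hexg : ExgStmt) {n : ℕ} {θ : FIC} (hB : BG n (RR θ)) {T : List ℕ}
    (h1 : 1 ∈ T) (h2 : 2 ∈ T) {c g : ℕ} (hc : c ≡ g [MOD n]) (h : Ec n c T (RR θ)) :
    Ec n g T (RR θ) := by
  have hn := hB.pos
  rw [ec_iff] at h ⊢
  have a1 : RR θ (Wab 1 2 T n (n + g) n) (Wab 1 2 T n (n + c) n) :=
    red hexg hB h1 rfl (Nat.ModEq.add_left n hc.symm) rfl hn hn (by omega) (by omega) hn hn
  have a2 : RR θ (Wab 2 1 T (n + c) (n + (n - 1) * c) (n + c))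
      (Wab 2 1 T (n + g) (n + (n - 1) * g) (n + g)) :=
    red hexg hB h2 (Nat.ModEq.add_left n hc) (Nat.ModEq.add_left n (Nat.ModEq.mul_left (n - 1) hc))
      (Nat.ModEq.add_left n hc) (by omega) (by omega) (by omega) (by omega) (by omega) (by omega)
  exact θ.trans a1 (θ.trans h a2)

/-- (D) -/
theorem bez {n c m g : ℕ} (hn : 1 ≤ n) (h : Nat.gcd c m ∣ g) :
    ∃ s t : ℕ, s * c + t * m ≡ g [MOD n] := by
  obtain ⟨w, hw⟩ := h
  have hb := Nat.gcd_eq_gcd_ab c m
  have hn0 : (n : ℤ) ≠ 0 := by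
    have : (1 : ℤ) ≤ n := by exact_mod_cast hn
    omega
  refine ⟨((Nat.gcdA c m * w) % (n : ℤ)).toNat, ((Nat.gcdB c m * w) % (n : ℤ)).toNat, ?_⟩
  rw [← Int.natCast_modEq_iff]
  push_cast
  rw [Int.toNat_of_nonneg (Int.emod_nonneg _ hn0), Int.toNat_of_nonneg (Int.emod_nonneg _ hn0)]
  have e1 : (Nat.gcdA c m * w) % (n : ℤ) ≡ Nat.gcdA c m * w [ZMOD n] := Int.mod_modEq _ _
  have e2 : (Nat.gcdB c m * w) % (n : ℤ) ≡ Nat.gcdB c m * w [ZMOD n] := Int.mod_modEq _ _
  have e3 := (e1.mul_right (c : ℤ)).add (e2.mul_right (m : ℤ))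
  have e4 : Nat.gcdA c m * w * c + Nat.gcdB c m * w * m = (g : ℤ) := by
    rw [hw]
    push_cast
    rw [hb]
    ring
  rw [e4] at e3
  exact e3

/-- ROW ECL -/
theorem ecl (hexg : ExgStmt) (hdcr : DcrStmt) : EclStmt := by
  intro n θ hB T h1 h2 h0 m c g _ hm hg h
  obtain ⟨s, t, hst⟩ := bez hB.pos hg
  have hA := ecA hexg hB h1 h2 h0 h s
  have hBt : ∀ t : ℕ, Ec n (s * c + t * m) T (RR θ) := by
    intro t
    induction t with
    | zero =>
      rw [Nat.zero_mul, Nat.add_zero]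
      exact hA
    | succ t ih =>
      have h3 := ecB hexg hdcr hB h1 h2 hm ih
      rw [show s * c + (t + 1) * m = s * c + t * m + m by ring]
      exact h3
  exact ecC hexg hB h1 h2 hst (hBt t)

end Pool.Agent.MWGR.H75
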